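import Pool.Agent.N133.Kum
import Pool.Agent.N133.GA

/-!
MP_1149f4_ag, Q1: generalised abundance for all projective manifolds which are birational to
covers `w j ^ e j = F j (t 0 ^ m, …, t n ^ m)` of arbitrary projective
varieties, `m` large.

`Psef ℂ L d (fun _ => False)`: the canonical class is pseudo-effective. The projective manifold `M`
is given by the set `D` of its prime divisors, which are places of the function field. `PsefSub`:
`m A - K_M` is pseudo-effective, and `BigDiv`: `A` is big, where the divisor `A` has the multiplicity
`a v` along `v` (both are defined by sections, `Pool/Agent/N133/GA.lean`). If `A` and `m A - K_M` are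
nef and `A` is big, then `(m + 1) A - K_M` is nef and big, and `A` is semiample by the base point free
theorem.
-/

set_option autoImplicit false
set_option linter.overlappingInstances false

namespace Pool.Agent.Results.MP_1149f4_ag.KummerGenAbundance

open Pool.Agent.W602.GT Pool.Agent.Y192.KC
open Pool.Agent.N133.GA (PsefSub BigDiv)

/-- Let `Z` be any irreducible projective variety in `P^n`, not in a coordinate hyperplane, with the
homogeneous prime ideal `I`, let `F 1, …, F r` be forms which do not vanish on `Z`, and let
`e 1, …, e r` be positive numbers (there is no condition on the singularities of `Z` and of the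
divisors `F j = 0`). There is a number `m0` with the following property. Let `m ≥ m0` be divisible by
the `e j`, and let `V` be any irreducible component, of dimension `d > 0`, of the projective variety
with the equations `f (t 0 ^ m, …, t n ^ m) = 0`, `f ∈ I`, and
`w j ^ e j = F j (t 0 ^ m, …, t n ^ m)` in the weighted projective space with the homogeneous
coordinates `t i` and `w j`; `L` is the function field of `V`, and `t`, `w` are the coordinates of its
generic point. Let `M` be a projective manifold with this function
field, with pseudo-effective canonical class, let `A` be a divisor on `M` and let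
`m A - K_M` be pseudo-effective for some `m ≥ 1` (for instance `A` and `m A - K_M` nef). Then `A` is
big. -/
theorem result {n r : ℕ} (X : ZCov n r) (hG : X.G = 1) :
    ∃ m0 : ℕ, ∀ m, m0 ≤ m → (∀ j, X.e j ∣ m) →
      ∀ (L : Type) [Field L] [Algebra ℂ L] (t : Fin (n + 1) → L) (w : Fin r → L),
      ZField X m L t w → ∀ d : ℕ, 1 ≤ d → Algebra.trdeg ℂ L = d →
      Psef ℂ L d (fun _ => False) →
      ∀ D : FF.Place ℂ L → Prop, (∀ v, D v → Divisorial d v) →
      ∀ (a : FF.Place ℂ L → ℤ) (m' : ℕ), 1 ≤ m' → PsefSub ℂ d D m' a → BigDiv ℂ d D a := by
  obtain ⟨m0, hm0⟩ := Pool.Agent.N133.Kum.kum_abundance X hG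
  refine ⟨m0, fun m hm he L _ _ t w hF d hd htr => ?_⟩
  obtain ⟨h1, h2⟩ := hm0 m hm he L t w hF d hd htr
  have hess : Algebra.EssFiniteType ℂ L := by
    rw [← IntermediateField.fg_top_iff, ← hF.gen]
    exact IntermediateField.fg_adjoin_of_finite ((Set.finite_range _).union (Set.finite_range _))
  have e1 : Psef ℂ L d (fun _ => False) ↔ GeneralType ℂ L d := h1.out 0 2
  intro hP D hD a m' hm1 hps
  exact Pool.Agent.N133.GA.big_of_psefSub (e1.1 hP) hD hm1 hps

end Pool.Agent.Results.MP_1149f4_ag.KummerGenAbundance
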