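import Pool.Agent.TH710.ND.Proj
import Pool.Agent.TH710.ND.Sp
import Pool.Agent.TH466.QG.Top
import Pool.Agent.N133.GA

/-!
MP_1149f4_ag, Q1: generalised abundance for all projective manifolds which are birational to
components of projective varieties given by nested sums of high powers
of linear forms, or of monomials.

`Psef k K w (fun _ => False)`: the canonical class is pseudo-effective. The projective manifold `M`
is given by the set `D` of its prime divisors, which are places of the function field. `PsefSub`:
`m A - K_M` is pseudo-effective, and `BigDiv`: `A` is big, where the divisor `A` has the multiplicity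
`a v` along `v` (both are defined by sections, `Pool/Agent/N133/GA.lean`). If `A` and `m A - K_M` are
nef and `A` is big, then `(m + 1) A - K_M` is nef and big, and `A` is semiample by the base point free
theorem.
-/

set_option autoImplicit false
set_option linter.overlappingInstances false

namespace Pool.Agent.Results.MP_1149f4_ag.NestedGenAbundance

open MvPolynomial Pool.Agent.W602.GT
open Pool.Agent.TH710.ND (HighTowers)
open Pool.Agent.N133.GA (PsefSub BigDiv)

/-- Let `V` be an irreducible component, of dimension `w ≥ 1`, of a projective variety given by forms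
which are nested sums of high powers of linear forms, or nested sums of high powers of monomials: at
each of at most `h + 1` levels there are at most `s` summands, and the exponents are at least
`(n + 1) (h + 1) (2 s + 1) ^ 5`. Let `M` be a projective manifold with this function
field, with pseudo-effective canonical class, let `A` be a divisor on `M` and let
`m A - K_M` be pseudo-effective for some `m ≥ 1` (for instance `A` and `m A - K_M` nef). Then `A` is
big. -/
theorem result {k : Type} [Field k] [IsAlgClosed k] [CharZero k] {n : ℕ} {ι : Type}
    {F : ι → MvPolynomial (Fin (n + 1)) k} {s N h : ℕ}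
    (hF : HighTowers s N h F) (hN : (n + 1) * ((h + 1) * (2 * s + 1) ^ 5) ≤ N)
    {K : Type} [Field K] [Algebra k K] {w : ℕ} {y : Fin (n + 1) → K}
    (hy : SubVar F K w y) (hcomp : IsComponent F y) :
    Psef k K w (fun _ => False) →
      ∀ D : FF.Place k K → Prop, (∀ v, D v → Divisorial w v) →
      ∀ (a : FF.Place k K → ℤ) (m : ℕ), 1 ≤ m → PsefSub k w D m a → BigDiv k w D a := by
  have h1 := Pool.Agent.TH710.ND.neg_tfae hF (Pool.Agent.TH710.ND.bnd_le hN).1 hy hcomp
  have hess : Algebra.EssFiniteType k K := Pool.Agent.TH466.QG.SubVar.ess hy
  have e2 : ¬ GeneralType k K w ↔ ¬ Psef k K w (fun _ => False) := h1.out 3 1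
  have e3 : Ruled k K ↔ ¬ Psef k K w (fun _ => False) := h1.out 2 1
  have e1 : Psef k K w (fun _ => False) ↔ GeneralType k K w := (not_iff_not.1 e2).symm
  have h2 : ¬ Psef k K w (fun _ => False) →
      Pool.Agent.W619.TW.NumNeg k K w (fun _ => False) := fun h2 =>
    (Pool.Agent.TH466.QG.neg_below (K := K) (L := K) hy.dim (e3.2 h2)).2.2
  intro hP D hD a m hm1 hps
  exact Pool.Agent.N133.GA.big_of_psefSub (e1.1 hP) hD hm1 hps

end Pool.Agent.Results.MP_1149f4_ag.NestedGenAbundance
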