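import Pool.Agent.R869.WProj
import Pool.Agent.TH466.QG.Top
import Pool.Agent.N133.GA

/-!
MP_1149f4_ag, Q1: generalised abundance for all projective manifolds which are birational to
components of projective varieties given by forms with few monomials
whose exponents are far apart in the sense of lattice widths.

`Psef ℂ K w (fun _ => False)`: the canonical class is pseudo-effective. The projective manifold `M`
is given by the set `D` of its prime divisors, which are places of the function field. `PsefSub`:
`m A - K_M` is pseudo-effective, and `BigDiv`: `A` is big, where the divisor `A` has the multiplicity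
`a v` along `v` (both are defined by sections, `Pool/Agent/N133/GA.lean`). If `A` and `m A - K_M` are
nef and `A` is big, then `(m + 1) A - K_M` is nef and big, and `A` is semiample by the base point free
theorem.
-/

set_option autoImplicit false
set_option linter.overlappingInstances false

namespace Pool.Agent.Results.MP_1149f4_ag.WideGenAbundance

open MvPolynomial Pool.Agent.W602.GT Pool.Agent.H159R3.GGLLog Pool.Agent.R869.Wd
open Pool.Agent.N133.GA (PsefSub BigDiv)

/-- Let `V` be an irreducible component, of dimension `w ≥ 1`, of the projective variety in `P^n`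
given by finitely many forms with at most `s` monomials, and let the system of forms be `N`-wide with
`N > n s (s - 1) (s - 2) / 2` (`Pool/Agent/R869/WDefs.lean`: whenever at most `n` pairs of exponent
vectors of the forms, in the variables of a set `I`, are such that the sum of the segments between
them has positive width in all directions, this sum has width at least `N` in all directions). Let `M` be a projective manifold with this function
field, with pseudo-effective canonical class, let `A` be a divisor on `M` and let
`m A - K_M` be pseudo-effective for some `m ≥ 1` (for instance `A` and `m A - K_M` nef). Then `A` is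
big. -/
theorem result {n : ℕ} {ι : Type} {F : ι → MvPolynomial (Fin (n + 1)) ℂ} {s N : ℕ}
    (hfin : Finite ι) (hs : 1 ≤ s) (hF : ∀ e, IsForm (F e)) (hc : ∀ e, (F e).support.card ≤ s)
    (hW : Wide ∅ F N) (hN : n * (s * ((s - 1) * (s - 2) / 2)) < N) {K : Type} [Field K]
    [Algebra ℂ K] {w : ℕ} {y : Fin (n + 1) → K} (hw : 1 ≤ w) (hy : SubVar F K w y)
    (hcomp : IsComponent F y) :
    Psef ℂ K w (fun _ => False) →
      ∀ D : FF.Place ℂ K → Prop, (∀ v, D v → Divisorial w v) →
      ∀ (a : FF.Place ℂ K → ℤ) (m : ℕ), 1 ≤ m → PsefSub ℂ w D m a → BigDiv ℂ w D a := by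
  have hC : Sys ∅ F s N := ⟨hF, hs, hc, hW, by
    rw [tri_choose]
    refine lt_of_le_of_lt (le_of_eq ?_) hN
    ring⟩
  have h1 := general_or_ruled hC hw hy hcomp
  have hess : Algebra.EssFiniteType ℂ K := Pool.Agent.TH466.QG.SubVar.ess hy
  have e3 : GeneralType ℂ K w ↔ ¬ Ruled ℂ K := h1.out 0 1
  have e1 : Psef ℂ K w (fun _ => False) ↔ GeneralType ℂ K w := h1.out 2 0
  have h2 : ¬ Psef ℂ K w (fun _ => False) →
      Pool.Agent.W619.TW.NumNeg ℂ K w (fun _ => False) := fun h2 =>
    (Pool.Agent.TH466.QG.neg_below (K := K) (L := K) hy.dim (by
      by_contra hR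
      exact h2 (e1.2 (e3.2 hR)))).2.2
  intro hP D hD a m hm1 hps
  exact Pool.Agent.N133.GA.big_of_psefSub (e1.1 hP) hD hm1 hps

end Pool.Agent.Results.MP_1149f4_ag.WideGenAbundance
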