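import Pool.Agent.TH710.ND.Proj
import Pool.Agent.TH710.ND.Sp
import Pool.Agent.TH466.QG.Top
import Pool.Agent.R882.HYM

/-!
MP_1e3e9c_ag, Q1: Kobayashi's conjecture for all projective varieties which are birational to the
components of projective varieties given by nested sums of high powers of linear forms, or of
monomials.

`HighTowers s N h F` (`Pool/Agent/TH710/ND`): the `F e` are nested sums of high powers of linear
forms, or nested sums of high powers of monomials. `K`, `y` are the function field and the generic
point of an irreducible component of dimension `w` of `{F = 0}`, and `x` is the generic point, in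
homogeneous coordinates, of a projective variety `V` in `P^M` with function field `K`.
`BrodyHyperbolic x`: all holomorphic maps from `ℂ` to `V` are constant. `NoRationalCurve x`: `V`
contains no rational curve. `GeneralType ℂ K w`: the canonical class of (a resolution of) `V` is big;
`KodGe ℂ K w (fun _ => False) 0`: the Kodaira dimension is at least `0`; `Psef ℂ K w (fun _ => False)`:
the canonical class is pseudo-effective; `Ruled ℂ K`: `V` is birational to a product with the
projective line; `IsUniruled ℂ K w`: `V` is uniruled. If `V` is smooth and hyperbolic, and the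
canonical class is big, then it is ample, by the cone theorem and the base point free theorem.
-/

set_option autoImplicit false
set_option linter.overlappingInstances false

namespace Pool.Agent.Results.MP_1e3e9c_ag.NestedKobayashi

open FF MvPolynomial Pool.Agent.W602.GT
open Pool.Agent.TH710.ND (HighTowers)
open Pool.Agent.W619.PQ (IsUniruled)
open Pool.Agent.R882.HY (NoRationalCurve BrodyHyperbolic)

/-- Let `Z` be an irreducible component, of dimension `w`, of a projective variety given by forms
which are nested sums of high powers of linear forms, or nested sums of high powers of monomials: at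
each of at most `h + 1` levels there are at most `s` summands, and the exponents are at least
`(n + 1) (h + 1) (2 s + 1) ^ 5`. Let `V` in `P^M` be any projective variety which is birational to
`Z`. If `V` is Kobayashi hyperbolic, or if `V` only contains no rational curve, then the canonical
class of `V` is big. The following are equivalent: the canonical class of `V` is big; a multiple of it
is effective; it is pseudo-effective; `V` is not ruled; `V` is not uniruled. -/
theorem result {n : ℕ} {ι : Type} {F : ι → MvPolynomial (Fin (n + 1)) ℂ} {s N h : ℕ}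
    (hF : HighTowers s N h F) (hN : (n + 1) * ((h + 1) * (2 * s + 1) ^ 5) ≤ N)
    {K : Type} [Field K] [Algebra ℂ K] {w : ℕ} {y : Fin (n + 1) → K}
    (hy : SubVar F K w y) (hcomp : IsComponent F y)
    {M : ℕ} {x : Fin (M + 1) → K} (hx : x ≠ 0) (hgen : coords ℂ x = ⊤) :
    (BrodyHyperbolic x → GeneralType ℂ K w) ∧ (NoRationalCurve x → GeneralType ℂ K w) ∧
    [GeneralType ℂ K w, KodGe ℂ K w (fun _ => False) 0, Psef ℂ K w (fun _ => False),
      ¬ Ruled ℂ K, ¬ IsUniruled ℂ K w].TFAE := by
  have h1 := Pool.Agent.TH710.ND.neg_tfae hF (Pool.Agent.TH710.ND.bnd_le hN).1 hy hcomp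
  have hess : Algebra.EssFiniteType ℂ K := Pool.Agent.TH466.QG.SubVar.ess hy
  have e1 : ¬ KodGe ℂ K w (fun _ => False) 0 ↔ ¬ GeneralType ℂ K w := h1.out 0 3
  have e2 : ¬ Psef ℂ K w (fun _ => False) ↔ ¬ GeneralType ℂ K w := h1.out 1 3
  have e3 : Ruled ℂ K ↔ ¬ GeneralType ℂ K w := h1.out 2 3
  have hd : GeneralType ℂ K w ∨ IsUniruled ℂ K w := by
    by_cases hR : Ruled ℂ K
    · exact Or.inr (Pool.Agent.TH466.QG.neg_below (K := K) (L := K) hy.dim hR).1
    · exact Or.inl (not_not.1 fun h2 => hR (e3.2 h2))
  obtain ⟨c1, -, c3, c4⟩ := Pool.Agent.R882.HY.of_dichotomy hy.dim hd hx hgen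
  refine ⟨c4, c3, ?_⟩
  tfae_have 1 ↔ 2 := (not_iff_not.1 e1).symm
  tfae_have 1 ↔ 3 := (not_iff_not.1 e2).symm
  tfae_have 1 ↔ 4 := by rw [e3, not_not]
  tfae_have 1 ↔ 5 := c1
  tfae_finish

end Pool.Agent.Results.MP_1e3e9c_ag.NestedKobayashi
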