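import Pool.Agent.N133.PC10

/-!
MP_2c56d9_ag, Q1: weak abundance, `κ = ν`, for klt pairs `(X, Δ)` on the projective models `X` of
the irreducible projective varieties given by nested sums of high powers of monomials.

`NestedIn IsMono s M h F` (`Pool/Agent/TH710/ND/Dich.lean`): `F` is a sum of at most `s` terms
`c g ^ e`, `M ≤ e`, where the `g` are monomials or sums of at most `s` such terms of the next level,
and so on, with at most `h + 1` levels. `FunctionField F K w z`: `K` and `z` are the function field
and the generic point of the irreducible projective variety `V = {F = 0}` of dimension `w`.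
`Preserves b F`, `ActsTrivially b F`: the one-parameter group `t ↦ diag (t ^ b_j)` acts on `V`; it
acts trivially on `V`.

`NormalModel y` (`Pool/Agent/Y172/Defs.lean`): `y` is the generic point, in homogeneous coordinates,
of a normal projective variety `X` with function field `K`, so `X` is any normal projective variety
birational to `V`. `Effective y Δ`: `Δ ≥ 0` is a `ℚ`-divisor on `X`. `Klt y w Δ`
(`Pool/Agent/N133/PC8.lean`): the pair `(X, Δ)` is Kawamata log terminal. `LogDisc y w Δ Q α`
(`Pool/Agent/Y191/Disc.lean`): the log discrepancy of `(X, Δ)` along the prime divisor `Q` over `X` is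
at least `α`. `kodairaDim y w Δ` is the Kodaira dimension of `K_X + Δ`, and `numericalDim y w Δ A` is
the numerical dimension with respect to the divisor `A`: the upper limit of
`log h⁰(m (K_X + Δ) + A) / log m`; if it is `-∞` for all `A ≥ 0`, then `K_X + Δ` is not
pseudo-effective. `OverCoord z Q`, `Tangent z b Q`
(`Pool/Agent/N133/PC8.lean`): the centre of `Q` lies on a coordinate hyperplane of the projective
space of `V`; `Q` is invariant under the one-parameter group.
-/

set_option autoImplicit false

namespace Pool.Agent.Results.MP_2c56d9_ag.NestedPairs

open FF Pool.Agent.W602.GT Pool.Agent.N133.PC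
open Pool.Agent.H159R3.GGL (Irred Preserves ActsTrivially)
open Pool.Agent.TH710.ND (NestedIn IsMono)
open Pool.Agent.TH710.NW (FunctionField)
open Pool.Agent.Y172 (NormalModel IsPrimeDivisor Effective Integral LogCanonical kodairaDim
  numericalDim)
open Pool.Agent.Y191 (LogDisc)

/-- Let `V` be an irreducible projective variety in `P^n` given by finitely many forms which are
nested sums of high powers of monomials: at each of at most `h + 1` levels there are at most `s`
summands, and the exponents are at least `(n + 1) (h + 1) (2 s + 1) ^ 5`. Let `(X, Δ)` be any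
projective klt pair, `X` birational to `V`, such that each prime divisor over `X` with negative
discrepancy lies over a coordinate hyperplane or is invariant under the one-parameter groups of
diagonal matrices which act on `V` (for instance, `(X, Δ)` is invariant under the diagonal torus which
acts on `V`; there is no condition if no such group acts). Then either these one-parameter groups act
trivially, and `κ(K_X + Δ) = ν(K_X + Δ) = w`, or one of them acts nontrivially, and `K_X + Δ` is not
pseudo-effective: `κ = ν = -∞`. So `κ = ν` in all cases. -/
theorem result {n : ℕ} {ι : Type} [Finite ι] {F : ι → MvPolynomial (Fin (n + 1)) ℂ} {s M h : ℕ}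
    (hF : ∀ e, IsForm (F e) ∧ NestedIn IsMono s M h (F e))
    (hM : (n + 1) * ((h + 1) * (2 * s + 1) ^ 5) ≤ M) (hirr : Irred F)
    {K : Type} [Field K] [Algebra ℂ K] {w : ℕ} {z : Fin (n + 1) → K}
    (hz : FunctionField F K w z) {N : ℕ} {y : Fin (N + 1) → K} (hy : NormalModel y)
    (Δ : Place ℂ K → ℚ) (hΔ : Effective y Δ) (hk : Klt y w Δ)
    (hcan : ∀ Q, Divisorial w Q → LogDisc y w Δ Q 1 ∨ OverCoord z Q ∨
      ∀ b, Preserves b F → Tangent z b Q) :
    ((∀ b, Preserves b F → ActsTrivially b F) ∧ kodairaDim y w Δ = (w : WithBot ℕ) ∧
      ∀ A, Effective y A → Integral y A → numericalDim y w Δ A = (w : EReal)) ∨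
    ((∃ b, Preserves b F ∧ ¬ ActsTrivially b F) ∧
      kodairaDim y w Δ = ⊥ ∧ ∀ A, Effective y A → numericalDim y w Δ A = ⊥) :=
  nested_pair_klt hF hM hirr hz hy hΔ hk hcan

end Pool.Agent.Results.MP_2c56d9_ag.NestedPairs
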