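import Pool.Agent.N133.OB17

/-!
MP_2c56d9_ag, Q1: weak abundance for log canonical pairs `(X, Δ)` whose orbifold symmetric
differentials have no common zeros over a general point of `X`.

`NormalModel y`, `IsPrimeDivisor y P` (`Pool/Agent/Y172/Defs.lean`): `y` is the generic point, in
homogeneous coordinates, of a normal projective variety `X` with function field `K`; `P` is a prime
divisor of `X`. `Effective y Δ`, `LogCanonical y n Δ`: `Δ ≥ 0` is a `ℚ`-divisor on `X`, `K_X + Δ` is
`ℚ`-Cartier, and the pair `(X, Δ)` is log canonical. `LogDisc y n Δ Q α` (`Pool/Agent/Y191/Disc.lean`):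
the log discrepancy of `(X, Δ)` along the prime divisor `Q` over `X` is at least `α`. `kodairaDim y n Δ`
is the Kodaira dimension of `K_X + Δ`; `numericalDim y n Δ A` is the numerical dimension with respect
to the divisor `A`, the upper limit of `log h⁰(m (K_X + Δ) + A) / log m`; `IsSection y n m D ω`: `ω` is
a section of `m K_X + D`. `Ratio y n Δ` (`Pool/Agent/N133/OB7.lean`): the ratios of two sections of
`m (K_X + Δ)`, `m ≥ 1`. `IsIitaka y n Δ L` (`Pool/Agent/N133/OB17.lean`): `L` consists of the elements
of `K` algebraic over the field generated by these ratios.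

`IsOrb δ0`, `OrbForm`, `SymOrb` (`Pool/Agent/Y174/OB/Defs.lean`), `NoBaseOrb`
(`Pool/Agent/Y174/OB/Defs2.lean`): `δ0` gives an orbifold divisor, with the multiplicities
`1` and `1 - 1 / q`, on every model of `K`; a symmetric differential of the orbifold has, for local
coordinates `x_j` such that `x_1 = 0` is a divisor with the multiplicity `1 - 1 / q`, monomials
`(d x_1) ^ i ...` with coefficients with poles of order at most `i (1 - 1 / q)`; `NoBaseOrb ℂ K n δ0`:
those of all positive degrees have no common zeros at the geometric generic point of the projectivized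
tangent bundle, so over a general point of `X`.

`LiesOn w v e`, `IsPull δ δ'` (`Pool/Agent/Y174/BDefs.lean`): the place `w` of the cover lies over the
place `v` with the ramification index `e`; `δ'` is the boundary of the cover, the effective part of
`Δ'` with `K + Δ' = π^* (K + Δ)`. `LiesFib`, `IsPullFib` (`Pool/Agent/Y174/VDefs.lean`): the same for
the geometric generic fibre. `PairKod Λ F n δ h`, `PairNum Λ F n δ h` (`Pool/Agent/Y174/BDefs.lean`):
`κ ≥ h` and `ν ≤ h` for the log canonical divisor, on all models, of the pair with the multiplicities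
`δ v`. `LogFld`, `BdOn` (`Pool/Agent/Y174/LDefs.lean`): local sections of the logarithmic tangent
sheaf. `FormCover Λ n δF δ0F M` (`Pool/Agent/N133/OB17.lean`): the cover `M` with the 1-forms and the
Kodaira and numerical dimensions described below.
-/

set_option autoImplicit false

namespace Pool.Agent.Results.MP_2c56d9_ag.OrbifoldSymDifferentials

open FF Pool.Agent.W602.GT Pool.Agent.W619.PQ Pool.Agent.W619.TW Pool.Agent.Y172 Pool.Agent.Y174
  Pool.Agent.Y191 Pool.Agent.N133.OB

/-- Let `(X, Δ)` be a projective log canonical pair of dimension `n` over `ℂ`, with function field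
`K`, and `δ0` an orbifold divisor, on all models of `K`, such that `δ0 ≤ Δ` on `X` and the
prime divisors with `δ0 ≠ 0` lie over a proper closed subset (each of them is a zero of one of
finitely many functions `G`): for instance, `δ0 = Δ = ∑ (1 - 1 / q_i) D_i` on `X`, and `δ0 = 0` at
the exceptional divisors. If the symmetric differentials of the orbifold have no common zeros over a
general point of `X`, then `κ = κ(K_X + Δ)` is not `-∞`, `κ ≤ ν(K_X + Δ) ≤ n`, and the following
holds for the Iitaka fibration `X ⇢ W`, where the function field `L` of `W` consists of the elements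
of `K` which are algebraic over the field generated by the ratios of the sections of the multiples of
`K_X + Δ`.

The variety `W` has dimension `κ`. Let `β` be the divisor on all models of `K` which is `Δ` on `X`,
found by the theorem; at the other prime divisors `Q` over `X` the log discrepancy of `(X, Δ)` is at
least `1 - β Q`. Let `F` be the function field of the geometric generic fibre, over the algebraic
closure `Λ` of `L`, `r + 1 = n - κ > 0` its dimension, and `δF`, `δ0F` the restrictions of `β`
and `δ0` to it. The log canonical divisor of the pair `(F, δF)` has Kodaira dimension `0`, and there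
is a finite Galois cover of the fibre, with function field `M`, such that the orbifold `(F, δ0F)` has
`r + 1` linearly independent multivalued 1-forms over `M`, and `M` has `r + 1` linearly independent
1-forms with at most logarithmic poles, over the divisors with `δ0F = 1`; for the boundary `δ'` of the
cover the pair `(M, δ')` has Kodaira dimension `0` as well, and `ν(K_X + Δ) ≤ κ(K_X + Δ) + ν(M, δ')`.
So weak abundance for `(X, Δ)` is reduced to this pair, with `κ = 0`, on a variety whose logarithmic
cotangent bundle has `r + 1` generically independent sections (for `δ0 < 1`: on a variety of maximal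
Albanese dimension). -/
theorem result {K : Type} [Field K] [Algebra ℂ K] {n N : ℕ} {y : Fin (N + 1) → K}
    (hy : NormalModel y) (hn : Algebra.trdeg ℂ K = n) {Δ : Place ℂ K → ℚ} (hΔ : Effective y Δ)
    (hLC : LogCanonical y n Δ) {δ0 : Place ℂ K → ℝ} (hO : IsOrb δ0)
    (hle : ∀ P, IsPrimeDivisor y P → δ0 P ≤ Δ P) {G : Finset K} (hG0 : ∀ g ∈ G, g ≠ 0)
    (hG : ∀ v, δ0 v ≠ 0 → ∃ g ∈ G, 0 < v.ord g) (h : NoBaseOrb ℂ K n δ0) :
    ∃ (κ : ℕ) (β : Place ℂ K → ℚ), kodairaDim y n Δ = (κ : WithBot ℕ) ∧ κ ≤ n ∧
      (∀ A, Effective y A → Integral y A → (κ : EReal) ≤ numericalDim y n Δ A ∧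
        numericalDim y n Δ A ≤ (n : EReal)) ∧
      (∀ P, IsPrimeDivisor y P → β P = Δ P) ∧
      (∀ Q, Divisorial n Q → LogDisc y n Δ Q (1 - β Q)) ∧
      -- the function field of the base of the Iitaka fibration
      ∀ (L : Type) [Field L] [Algebra ℂ L] [Algebra L K] [IsScalarTower ℂ L K],
        IsIitaka y n Δ L → Algebra.trdeg ℂ L = κ ∧
        -- the geometric generic fibre
        ∀ (r : ℕ), n = κ + (r + 1) → ∀ (Λ F : Type) [Field Λ] [Field F] [Algebra L Λ]
          [IsAlgClosure L Λ] [Algebra Λ F] [Algebra K F] [Algebra L F] [IsScalarTower L Λ F]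
          [IsScalarTower L K F] (δF δ0F : Place Λ F → ℝ),
          IntermediateField.adjoin Λ (Set.range (algebraMap K F)) = ⊤ →
          IsPullFib (fun v => (β v : ℝ)) δF → IsPullFib δ0 δ0F →
          PairKod Λ F (r + 1) δF 0 ∧ ¬ PairKod Λ F (r + 1) δF 1 ∧
          ∃ M : IntermediateField F (AlgebraicClosure F), FormCover Λ (r + 1) δF δ0F M ∧
            ∀ δ' : Place Λ M → ℝ, IsPull δF δ' → ∀ k, PairNum Λ M (r + 1) δ' k →
              ∀ A, Effective y A → Integral y A →
                numericalDim y n Δ A ≤ ((κ + k : ℕ) : EReal) :=
  pair_main' hy hn hΔ hLC hO hle hG0 hG h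

end Pool.Agent.Results.MP_2c56d9_ag.OrbifoldSymDifferentials
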