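import Pool.Agent.N133.Kum
import Pool.Agent.N133.GA

/-!
MP_370cf3_ag, Q1: the conjecture of Campana and Peternell for all projective manifolds which are
birational to covers `w j ^ e j = F j (t 0 ^ m, …, t n ^ m)` of arbitrary projective
varieties, `m` large.

`IsPsefRest ℂ L d (fun _ => False) q a`: `q K_M - A` is pseudo-effective, where the divisor `A` has
the multiplicity `a v` along `v`. `DivKodGe ℂ L d a h`: the Iitaka dimension of `A` is at least
`h`; `TW.KodGe ℂ L d (fun _ => False) h`: the Kodaira dimension of `M` is at least `h` (all of them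
are defined by growth of sections, `Pool/Agent/W619/TW/NDefs.lean` and `CPDefs.lean`).
-/

set_option autoImplicit false
set_option linter.overlappingInstances false

namespace Pool.Agent.Results.MP_370cf3_ag.KummerCampanaPeternell

open Pool.Agent.W602.GT Pool.Agent.Y192.KC
open Pool.Agent.W619 (TW.IsPsefRest TW.DivKodGe TW.KodGe)

/-- Let `Z` be any irreducible projective variety in `P^n`, not in a coordinate hyperplane, with the
homogeneous prime ideal `I`, let `F 1, …, F r` be forms which do not vanish on `Z`, and let
`e 1, …, e r` be positive numbers (there is no condition on the singularities of `Z` and of the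
divisors `F j = 0`). There is a number `m0` with the following property. Let `m ≥ m0` be divisible by
the `e j`, and let `V` be any irreducible component, of dimension `d > 0`, of the projective variety
with the equations `f (t 0 ^ m, …, t n ^ m) = 0`, `f ∈ I`, and
`w j ^ e j = F j (t 0 ^ m, …, t n ^ m)` in the weighted projective space with the homogeneous
coordinates `t i` and `w j`; `L` is the function field of `V`, and `t`, `w` are the coordinates of its
generic point. Let `M` be a projective manifold with this function
field, and let `A` be a divisor on `M` such that `q K_M - A` is pseudo-effective for some `q ≥ 1`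
(that is, `K_M` is, up to linear equivalence of `ℚ`-divisors, the sum of `(1 / q) A` and a
pseudo-effective divisor). Then the Kodaira dimension of `M` is at least the Iitaka dimension of
`A`. -/
theorem result {n r : ℕ} (X : ZCov n r) (hG : X.G = 1) :
    ∃ m0 : ℕ, ∀ m, m0 ≤ m → (∀ j, X.e j ∣ m) →
      ∀ (L : Type) [Field L] [Algebra ℂ L] (t : Fin (n + 1) → L) (w : Fin r → L),
      ZField X m L t w → ∀ d : ℕ, 1 ≤ d → Algebra.trdeg ℂ L = d →
      ∀ (q : ℕ), 1 ≤ q → ∀ (a : FF.Place ℂ L → ℤ),
      TW.IsPsefRest ℂ L d (fun _ => False) q a → ∀ h : ℕ, TW.DivKodGe ℂ L d a h →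
        TW.KodGe ℂ L d (fun _ => False) h := by
  obtain ⟨m0, hm0⟩ := Pool.Agent.N133.Kum.kum_abundance X hG
  refine ⟨m0, fun m hm he L _ _ t w hF d hd htr => ?_⟩
  obtain ⟨h1, h2⟩ := hm0 m hm he L t w hF d hd htr
  have hess : Algebra.EssFiniteType ℂ L := by
    rw [← IntermediateField.fg_top_iff, ← hF.gen]
    exact IntermediateField.fg_adjoin_of_finite ((Set.finite_range _).union (Set.finite_range _))
  have e1 : Psef ℂ L d (fun _ => False) ↔ GeneralType ℂ L d := h1.out 0 2
  intro q hr1 a hps h hA
  refine Pool.Agent.N133.GA.cp_dich hd ?_ hr1 hps hA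
  by_cases hP : Psef ℂ L d (fun _ => False)
  · exact Or.inl (e1.1 hP)
  · exact Or.inr (h2 hP)

end Pool.Agent.Results.MP_370cf3_ag.KummerCampanaPeternell
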