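import Pool.Agent.TH710.ND.Proj
import Pool.Agent.TH710.ND.Sp
import Pool.Agent.TH466.QG.Top
import Pool.Agent.N133.GA

/-!
MP_370cf3_ag, Q1: the conjecture of Campana and Peternell for all projective manifolds which are
birational to components of projective varieties given by nested sums of high powers
of linear forms, or of monomials.

`IsPsefRest k K w (fun _ => False) r a`: `r K_M - A` is pseudo-effective, where the divisor `A` has
the multiplicity `a v` along `v`. `DivKodGe k K w a l`: the Iitaka dimension of `A` is at least
`l`; `TW.KodGe k K w (fun _ => False) l`: the Kodaira dimension of `M` is at least `l` (all of them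
are defined by growth of sections, `Pool/Agent/W619/TW/NDefs.lean` and `CPDefs.lean`).
-/

set_option autoImplicit false
set_option linter.overlappingInstances false

namespace Pool.Agent.Results.MP_370cf3_ag.NestedCampanaPeternell

open MvPolynomial Pool.Agent.W602.GT
open Pool.Agent.TH710.ND (HighTowers)
open Pool.Agent.W619 (TW.IsPsefRest TW.DivKodGe TW.KodGe)

/-- Let `V` be an irreducible component, of dimension `w ≥ 1`, of a projective variety given by forms
which are nested sums of high powers of linear forms, or nested sums of high powers of monomials: at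
each of at most `h + 1` levels there are at most `s` summands, and the exponents are at least
`(n + 1) (h + 1) (2 s + 1) ^ 5`. Let `M` be a projective manifold with this function
field, and let `A` be a divisor on `M` such that `r K_M - A` is pseudo-effective for some `r ≥ 1`
(that is, `K_M` is, up to linear equivalence of `ℚ`-divisors, the sum of `(1 / r) A` and a
pseudo-effective divisor). Then the Kodaira dimension of `M` is at least the Iitaka dimension of
`A`. -/
theorem result {k : Type} [Field k] [IsAlgClosed k] [CharZero k] {n : ℕ} {ι : Type}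
    {F : ι → MvPolynomial (Fin (n + 1)) k} {s N h : ℕ}
    (hF : HighTowers s N h F) (hN : (n + 1) * ((h + 1) * (2 * s + 1) ^ 5) ≤ N)
    {K : Type} [Field K] [Algebra k K] {w : ℕ} {y : Fin (n + 1) → K} (hw : 1 ≤ w)
    (hy : SubVar F K w y) (hcomp : IsComponent F y) :
    ∀ (r : ℕ), 1 ≤ r → ∀ (a : FF.Place k K → ℤ),
      TW.IsPsefRest k K w (fun _ => False) r a → ∀ l : ℕ, TW.DivKodGe k K w a l →
        TW.KodGe k K w (fun _ => False) l := by
  have h1 := Pool.Agent.TH710.ND.neg_tfae hF (Pool.Agent.TH710.ND.bnd_le hN).1 hy hcomp
  have hess : Algebra.EssFiniteType k K := Pool.Agent.TH466.QG.SubVar.ess hy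
  have e2 : ¬ GeneralType k K w ↔ ¬ Psef k K w (fun _ => False) := h1.out 3 1
  have e3 : Ruled k K ↔ ¬ Psef k K w (fun _ => False) := h1.out 2 1
  have e1 : Psef k K w (fun _ => False) ↔ GeneralType k K w := (not_iff_not.1 e2).symm
  have h2 : ¬ Psef k K w (fun _ => False) →
      Pool.Agent.W619.TW.NumNeg k K w (fun _ => False) := fun h2 =>
    (Pool.Agent.TH466.QG.neg_below (K := K) (L := K) hy.dim (e3.2 h2)).2.2
  intro r hr1 a hps l hA
  refine Pool.Agent.N133.GA.cp_dich hw ?_ hr1 hps hA
  by_cases hP : Psef k K w (fun _ => False)
  · exact Or.inl (e1.1 hP)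
  · exact Or.inr (h2 hP)

end Pool.Agent.Results.MP_370cf3_ag.NestedCampanaPeternell
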