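import Pool.Agent.R869.WProj
import Pool.Agent.TH466.QG.Top
import Pool.Agent.N133.GA

/-!
MP_370cf3_ag, Q1: the conjecture of Campana and Peternell for all projective manifolds which are
birational to components of projective varieties given by forms with few monomials
whose exponents are far apart in the sense of lattice widths.

`IsPsefRest ℂ K w (fun _ => False) r a`: `r K_M - A` is pseudo-effective, where the divisor `A` has
the multiplicity `a v` along `v`. `DivKodGe ℂ K w a h`: the Iitaka dimension of `A` is at least
`h`; `TW.KodGe ℂ K w (fun _ => False) h`: the Kodaira dimension of `M` is at least `h` (all of them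
are defined by growth of sections, `Pool/Agent/W619/TW/NDefs.lean` and `CPDefs.lean`).
-/

set_option autoImplicit false
set_option linter.overlappingInstances false

namespace Pool.Agent.Results.MP_370cf3_ag.WideCampanaPeternell

open MvPolynomial Pool.Agent.W602.GT Pool.Agent.H159R3.GGLLog Pool.Agent.R869.Wd
open Pool.Agent.W619 (TW.IsPsefRest TW.DivKodGe TW.KodGe)

/-- Let `V` be an irreducible component, of dimension `w ≥ 1`, of the projective variety in `P^n`
given by finitely many forms with at most `s` monomials, and let the system of forms be `N`-wide with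
`N > n s (s - 1) (s - 2) / 2` (`Pool/Agent/R869/WDefs.lean`: whenever at most `n` pairs of exponent
vectors of the forms, in the variables of a set `I`, are such that the sum of the segments between
them has positive width in all directions, this sum has width at least `N` in all directions). Let `M` be a projective manifold with this function
field, and let `A` be a divisor on `M` such that `r K_M - A` is pseudo-effective for some `r ≥ 1`
(that is, `K_M` is, up to linear equivalence of `ℚ`-divisors, the sum of `(1 / r) A` and a
pseudo-effective divisor). Then the Kodaira dimension of `M` is at least the Iitaka dimension of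
`A`. -/
theorem result {n : ℕ} {ι : Type} {F : ι → MvPolynomial (Fin (n + 1)) ℂ} {s N : ℕ}
    (hfin : Finite ι) (hs : 1 ≤ s) (hF : ∀ e, IsForm (F e)) (hc : ∀ e, (F e).support.card ≤ s)
    (hW : Wide ∅ F N) (hN : n * (s * ((s - 1) * (s - 2) / 2)) < N) {K : Type} [Field K]
    [Algebra ℂ K] {w : ℕ} {y : Fin (n + 1) → K} (hw : 1 ≤ w) (hy : SubVar F K w y)
    (hcomp : IsComponent F y) :
    ∀ (r : ℕ), 1 ≤ r → ∀ (a : FF.Place ℂ K → ℤ),
      TW.IsPsefRest ℂ K w (fun _ => False) r a → ∀ h : ℕ, TW.DivKodGe ℂ K w a h →
        TW.KodGe ℂ K w (fun _ => False) h := by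
  have hC : Sys ∅ F s N := ⟨hF, hs, hc, hW, by
    rw [tri_choose]
    refine lt_of_le_of_lt (le_of_eq ?_) hN
    ring⟩
  have h1 := general_or_ruled hC hw hy hcomp
  have hess : Algebra.EssFiniteType ℂ K := Pool.Agent.TH466.QG.SubVar.ess hy
  have e3 : GeneralType ℂ K w ↔ ¬ Ruled ℂ K := h1.out 0 1
  have e1 : Psef ℂ K w (fun _ => False) ↔ GeneralType ℂ K w := h1.out 2 0
  have h2 : ¬ Psef ℂ K w (fun _ => False) →
      Pool.Agent.W619.TW.NumNeg ℂ K w (fun _ => False) := fun h2 =>
    (Pool.Agent.TH466.QG.neg_below (K := K) (L := K) hy.dim (by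
      by_contra hR
      exact h2 (e1.2 (e3.2 hR)))).2.2
  intro r hr1 a hps h hA
  refine Pool.Agent.N133.GA.cp_dich hw ?_ hr1 hps hA
  by_cases hP : Psef ℂ K w (fun _ => False)
  · exact Or.inl (e1.1 hP)
  · exact Or.inr (h2 hP)

end Pool.Agent.Results.MP_370cf3_ag.WideCampanaPeternell
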