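import Pool.Agent.N133.PC9

/-!
MP_66b48b_ag, Q1: weak nonvanishing for log canonical pairs `(X, Δ)` with fractional coefficients on the
projective models `X` of the covers `w j ^ e j = F j (t 0 ^ m, …, t n ^ m)` of arbitrary projective
varieties, `m` large.

`ZCov`, `ZField` (`Pool/Agent/Y192/KC/ZDefs.lean`): the data `Z`, `F j`, `e j`, `G`; the function
fields of the components of the covers. `OffG X.toCov m t Q`: the centre of the prime divisor `Q` lies
on the divisor `G (t 0 ^ m, …, t n ^ m) = 0`.

`NormalModel y` (`Pool/Agent/Y172/Defs.lean`): `y` is the generic point, in homogeneous coordinates,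
of a normal projective variety `X'` with function field `L`, so `X'` is any normal projective variety
birational to the cover. `Effective y Δ`, `LogCanonical y d Δ`: `Δ ≥ 0` is a `ℚ`-divisor on `X'` such
that the pair `(X', Δ)` is log canonical. `LogDisc y d Δ Q α` (`Pool/Agent/Y191/Disc.lean`): the log
discrepancy of `(X', Δ)` along the prime divisor `Q` over `X'` is at least `α`. `kodairaDim y d Δ` is
the Kodaira dimension of `K + Δ`, and `numericalDim y d Δ A` is the numerical dimension with respect
to the divisor `A`: the upper limit of `log h⁰(m (K + Δ) + A) / log m`; if it is `-∞` for all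
`A ≥ 0`, then `K + Δ` is not pseudo-effective.

`ZLim X`: there is a one-parameter group `s ↦ diag (s ^ l 0, …, s ^ l n)` which acts nontrivially on
`P^n`, preserves `Z`, the divisor of `G` on `Z` and the divisors of the `F j` on `Z` up to multiples
of `e j`, and whose limits for `s → 0` of the points of `Z` with `G ≠ 0` satisfy `G ≠ 0` as well;
`ZLimBy X l` (`Pool/Agent/N133/PC9.lean`): the group with the weights `l` is one of these.
`OverCoord t Q`, `Tangent t l Q` (`Pool/Agent/N133/PC8.lean`): the centre of `Q` lies on a coordinate
hyperplane `t_i = 0`; `Q` is invariant under the one-parameter group.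
-/

set_option autoImplicit false

namespace Pool.Agent.Results.MP_66b48b_ag.KummerLcPairs

open FF Pool.Agent.W602.GT Pool.Agent.N133.PC Pool.Agent.Y192.KC
open Pool.Agent.Y172 (NormalModel IsPrimeDivisor Effective Integral LogCanonical kodairaDim
  numericalDim)
open Pool.Agent.Y191 (LogDisc)

/-- Let `Z` be any irreducible projective variety in `P^n`, not in a coordinate hyperplane, with the
homogeneous prime ideal `I`, let `F 1, …, F r` and `G` be forms which do not vanish on `Z`, and let
`e 1, …, e r` be positive numbers (there is no condition on the singularities of `Z` and of the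
divisors of the forms). There is a number `m0` with the following property. Let `m ≥ m0` be divisible
by the `e j`, and let `L` be the function field of any irreducible component, of dimension `d`, of the
projective variety with the equations `f (t 0 ^ m, …, t n ^ m) = 0`, `f ∈ I`, and
`w j ^ e j = F j (t 0 ^ m, …, t n ^ m)` in weighted projective space. Let `(X', Δ)` be any projective
log canonical pair, `X'` with the function field `L`, such that the prime divisors of `X'` over
`G (t ^ m) = 0` have coefficients (at least) `1`, the prime divisors over `X'` which do not lie over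
`G (t ^ m) = 0` have positive log discrepancies, and each of them with negative discrepancy lies over
a coordinate hyperplane `t_i = 0` or is invariant under the one-parameter groups described above.
Then either there is no such one-parameter group, and `κ(K + Δ) ≥ 0`, or there is one, and `K + Δ` is
not pseudo-effective: `κ = ν = -∞`. In particular, if `K + Δ` is pseudo-effective, then it is
`ℚ`-linearly equivalent to an effective divisor. -/
theorem result {n r : ℕ} (X : ZCov n r) :
    ∃ m0 : ℕ, ∀ m, m0 ≤ m → (∀ j, X.e j ∣ m) →
      ∀ (L : Type) [Field L] [Algebra ℂ L] (t : Fin (n + 1) → L) (w : Fin r → L),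
      ZField X m L t w → ∀ d : ℕ, Algebra.trdeg ℂ L = d →
      ∀ (N : ℕ) (y : Fin (N + 1) → L), NormalModel y → ∀ Δ : Place ℂ L → ℚ, Effective y Δ →
      LogCanonical y d Δ → (∀ P, IsPrimeDivisor y P → OffG X.toCov m t P → 1 ≤ Δ P) →
      (∀ Q, Divisorial d Q → ¬ OffG X.toCov m t Q → ∃ α > 0, LogDisc y d Δ Q α) →
      (∀ Q, Divisorial d Q → LogDisc y d Δ Q 1 ∨ OverCoord t Q ∨ OffG X.toCov m t Q ∨
        ∀ l, ZLimBy X l → Tangent t l Q) →
      (¬ ZLim X ∧ 0 ≤ kodairaDim y d Δ) ∨
      (ZLim X ∧ kodairaDim y d Δ = ⊥ ∧ ∀ A, Effective y A → numericalDim y d Δ A = ⊥) :=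
  kum_pair_lc X

end Pool.Agent.Results.MP_66b48b_ag.KummerLcPairs
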