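import Pool.Agent.N133.PC14
import Pool.Agent.R869.WEx2

/-!
MP_66b48b_ag, Q1: weak nonvanishing, and `κ = ν`, for log canonical pairs `(X, Δ)` with fractional
coefficients on the projective models `X` of varieties given by forms with few monomials whose
exponents are far apart in the sense of lattice widths (no divisibility of the exponents, arbitrary
coefficients).

`Wide U F M` (`Pool/Agent/R869/WDefs.lean`): whenever at most `n` pairs of exponent vectors of the
forms, in the variables of a set `I` which contains `U`, are such that the sum of the segments between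
them has positive width in all directions, this sum has width at least `M` in all directions that are
minimal on `U`. `SubVarU`, `IsComponentU`: `K` is the function field, `z` the generic point, and `w`
the dimension of an irreducible component `V` of `{F = 0, x_j ≠ 0 for j in U}`. `OffU U z P`: the
centre of the prime divisor `P` lies on one of the hyperplanes `x_j = 0`, `j` in `U`. `Acts U ℂ z b`:
the one-parameter group `t ↦ diag (t ^ b_j)` acts on `V`.

`NormalModel y` (`Pool/Agent/Y172/Defs.lean`): `y` is the generic point, in homogeneous coordinates,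
of a normal projective variety `X` with function field `K`, so `X` is any normal projective variety
birational to `V`. `Effective y Δ`, `LogCanonical y w Δ`: `Δ ≥ 0` is a `ℚ`-divisor on `X` such that
the pair `(X, Δ)` is log canonical. `LogDisc y w Δ Q α` (`Pool/Agent/Y191/Disc.lean`): the log
discrepancy of `(X, Δ)` along the prime divisor `Q` over `X` is at least `α`. `kodairaDim y w Δ` is
the Kodaira dimension of `K_X + Δ`, and `numericalDim y w Δ A` is the numerical dimension with respect
to the divisor `A`: the upper limit of `log h⁰(m (K_X + Δ) + A) / log m`; if it is `-∞` for all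
`A ≥ 0`, then `K_X + Δ` is not pseudo-effective. `OverCoord z Q`,
`Tangent z b Q` (`Pool/Agent/N133/PC8.lean`): the centre of `Q` lies on a coordinate hyperplane of the
projective space of `V`; `Q` is invariant under the one-parameter group.
-/

set_option autoImplicit false

namespace Pool.Agent.Results.MP_66b48b_ag.WideLcPairs

open FF Pool.Agent.W602.GT Pool.Agent.R869.Wd Pool.Agent.N133.PC
open Pool.Agent.Y172 (NormalModel IsPrimeDivisor Effective Integral LogCanonical kodairaDim
  numericalDim)
open Pool.Agent.Y191 (LogDisc)

/-- Let `V` be an irreducible component, of dimension `w ≥ 1`, of the open part `x_j ≠ 0`, `j` in `U`,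
of a complex projective variety in `P^n` given by forms with at most `s` monomials, and let the system
of forms be `M`-wide relative to `U` with `M > n s (s - 1) (s - 2) / 2`. Let `(X, Δ)` be any
projective log canonical pair, `X` birational to `V`, such that the prime divisors of `X` over the
hyperplanes `x_j = 0`, `j` in `U`, have coefficients (at least) `1`, the other prime divisors over `X`
have positive log discrepancies, and each prime divisor over `X` with negative discrepancy lies over a
coordinate hyperplane or is invariant under the one-parameter groups of diagonal matrices which act on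
`V`. One of the following holds.
(1) All one-parameter groups of diagonal matrices which act on `V` act trivially, and
`κ(K_X + Δ) = ν(K_X + Δ) = w`.
(2) A nontrivial one-parameter group `t ↦ diag (t ^ b_j)` acts on `V` such that the `b_j`, `j` in `U`,
are minimal (`V` is covered by affine lines), and `K_X + Δ` is not pseudo-effective, `κ = ν = -∞`.
(3) Nontrivial one-parameter groups of diagonal matrices act on `V`, but none as in (2).
If `U` is empty, then (3) does not occur: for all these klt pairs `κ = ν ∈ {-∞, w}`; if `K_X + Δ` is
pseudo-effective, then it is big. -/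
theorem result {n : ℕ} {ι : Type} {U : Set (Fin (n + 1))} {F : ι → MvPolynomial (Fin (n + 1)) ℂ}
    {s M : ℕ} (hs : 1 ≤ s) (hF : ∀ e, IsForm (F e)) (hcard : ∀ e, (F e).support.card ≤ s)
    (hW : Wide U F M) (hM : n * (s * ((s - 1) * (s - 2) / 2)) < M) {K : Type} [Field K]
    [Algebra ℂ K] {w : ℕ} {z : Fin (n + 1) → K} (hw : 1 ≤ w) (hz : SubVarU U F K w z)
    (hcomp : IsComponentU U F z) {N : ℕ} {y : Fin (N + 1) → K} (hy : NormalModel y)
    (Δ : Place ℂ K → ℚ) (hΔ : Effective y Δ) (hLC : LogCanonical y w Δ)
    (hone : ∀ P, IsPrimeDivisor y P → OffU U z P → 1 ≤ Δ P)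
    (hklt : ∀ Q, Divisorial w Q → ¬ OffU U z Q → ∃ α > 0, LogDisc y w Δ Q α)
    (hcan : ∀ Q, Divisorial w Q → LogDisc y w Δ Q 1 ∨ OverCoord z Q ∨
      ∀ b, Acts U ℂ z b → Tangent z b Q) :
    ((∀ b, Acts U ℂ z b → ∀ i i', z i ≠ 0 → z i' ≠ 0 → b i = b i') ∧
      kodairaDim y w Δ = (w : WithBot ℕ) ∧
      ∀ A, Effective y A → Integral y A → numericalDim y w Δ A = (w : EReal)) ∨
    ((∃ b, Acts U ℂ z b ∧ (∃ i i', z i ≠ 0 ∧ z i' ≠ 0 ∧ b i ≠ b i') ∧
        ∀ j ∈ U, ∀ l, z l ≠ 0 → b j ≤ b l) ∧
      kodairaDim y w Δ = ⊥ ∧ ∀ A, Effective y A → numericalDim y w Δ A = ⊥) ∨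
    ((∃ b, Acts U ℂ z b ∧ ∃ i i', z i ≠ 0 ∧ z i' ≠ 0 ∧ b i ≠ b i') ∧
        ∀ b, Acts U ℂ z b → (∃ i i', z i ≠ 0 ∧ z i' ≠ 0 ∧ b i ≠ b i') →
          ∃ j ∈ U, ∃ l, z l ≠ 0 ∧ b l < b j) := by
  have hC : Sys U F s M := ⟨hF, hs, hcard, hW, by
    rw [tri_choose]
    refine lt_of_le_of_lt (le_of_eq ?_) hM
    ring⟩
  exact wide_pair_lc' hC hw hz hcomp hy hΔ hLC hone hklt hcan

end Pool.Agent.Results.MP_66b48b_ag.WideLcPairs
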