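import Pool.Agent.N133.PC14

/-!
MP_bc213e_ag, Q1: nonvanishing, and `κ = ν`, for log canonical pairs `(X, Δ)` with fractional
coefficients on the projective models `X` of quasi-projective varieties given by few monomials with
large exponents.

`IsPowSparse U s M G` (`Pool/Agent/W602/GT/PsDefs.lean`): the form `G` has at most `s` monomials, and
the exponents in it of the variables `x_j`, `j` not in `U`, are divisible by some `M' ≥ M`.
`SubVarU`, `IsComponentU`: `K` is the function field, `z` the generic point, and `w` the dimension of
an irreducible component `V` of `{F = 0, x_j ≠ 0 for j in U}`. `OffU U z P`: the centre of the prime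
divisor `P` lies on one of the hyperplanes `x_j = 0`, `j` in `U`.

`NormalModel y` (`Pool/Agent/Y172/Defs.lean`): `y` is the generic point, in homogeneous coordinates,
of a normal projective variety `X` with function field `K`, so `X` is any normal projective variety
birational to `V`. `Effective y Δ`, `LogCanonical y w Δ`: `Δ ≥ 0` is a `ℚ`-divisor on `X` such that
the pair `(X, Δ)` is log canonical. `LogDisc y w Δ Q α` (`Pool/Agent/Y191/Disc.lean`): the log
discrepancy of `(X, Δ)` along the prime divisor `Q` over `X` is at least `α`. `kodairaDim y w Δ` is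
the Kodaira dimension of `K_X + Δ`, and `numericalDim y w Δ A` is the numerical dimension with respect
to the divisor `A`: the upper limit of `log h⁰(m (K_X + Δ) + A) / log m`; if it is `-∞` for all
`A ≥ 0`, then `K_X + Δ` is not pseudo-effective, in particular not nef.

`Contracts U ℂ z b`, `Acts U ℂ z b` (`Pool/Agent/W602/GT/KStm.lean`): `t ↦ diag (t ^ b_j)`, `b ≥ 0`,
defines a map from the product of the affine line and an open part of `V` to `V`, so `V` is covered by
affine lines; this one-parameter group acts on `V`. `OverCoord z Q`, `Tangent z b Q`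
(`Pool/Agent/N133/PC8.lean`): the centre of `Q` lies on a coordinate hyperplane of the projective
space of `V`; `Q` is invariant under the one-parameter group.
-/

set_option autoImplicit false

namespace Pool.Agent.Results.MP_bc213e_ag.SparseLcPairs

open FF Pool.Agent.W602.GT Pool.Agent.N133.PC
open Pool.Agent.Y172 (NormalModel IsPrimeDivisor Effective Integral LogCanonical kodairaDim
  numericalDim)
open Pool.Agent.Y191 (LogDisc)

/-- Let `V` be an irreducible component, of dimension `w`, of the open part `x_j ≠ 0`, `j` in `U`, of a
projective variety in `P^n` given by forms with at most `s` monomials, the exponents of the `x_j`,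
`j` not in `U`, being divisible by some `M' ≥ n (s + 1) (s - 1) (s - 2) / 2`. Let `(X, Δ)` be any
projective log canonical pair, `X` birational to `V`, such that the prime divisors of `X` over the
hyperplanes `x_j = 0`, `j` in `U`, have coefficients (at least) `1`, the other prime divisors over `X`
have positive log discrepancies (`(X, Δ)` is klt there), and each prime divisor over `X` with
negative discrepancy lies over a coordinate hyperplane or is invariant under the one-parameter groups
of diagonal matrices which act on `V` (for instance, `(X, Δ)` is invariant under the diagonal torus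
which acts on `V`). Then either `V` is covered by affine lines `t ↦ (t ^ b_j x_j)`, and `K_X + Δ` is
not pseudo-effective, `κ = ν = -∞`; or this is not so, and `κ(K_X + Δ) = ν(K_X + Δ) = w - p`, where
`p` independent one-parameter groups of diagonal matrices act on `V`. In particular, if `K_X + Δ` is
nef (or pseudo-effective), then `κ(K_X + Δ) ≥ 0`. -/
theorem result {n : ℕ} {ι : Type} {U : Set (Fin (n + 1))} {F : ι → MvPolynomial (Fin (n + 1)) ℂ}
    {s M : ℕ} (hF : ∀ e, IsPowSparse U s M (F e))
    (hM : n * ((s + 1) * ((s - 1) * (s - 2) / 2)) ≤ M) {K : Type} [Field K] [Algebra ℂ K] {w : ℕ}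
    {z : Fin (n + 1) → K} (hz : SubVarU U F K w z) (hcomp : IsComponentU U F z) {N : ℕ}
    {y : Fin (N + 1) → K} (hy : NormalModel y) (Δ : Place ℂ K → ℚ) (hΔ : Effective y Δ)
    (hLC : LogCanonical y w Δ)
    (hone : ∀ P, IsPrimeDivisor y P → OffU U z P → 1 ≤ Δ P)
    (hklt : ∀ Q, Divisorial w Q → ¬ OffU U z Q → ∃ α > 0, LogDisc y w Δ Q α)
    (hcan : ∀ Q, Divisorial w Q → LogDisc y w Δ Q 1 ∨ OverCoord z Q ∨
      ∀ b, Acts U ℂ z b → Tangent z b Q) :
    ((∃ b, Contracts U ℂ z b) ∧ kodairaDim y w Δ = ⊥ ∧
        ∀ A, Effective y A → numericalDim y w Δ A = ⊥) ∨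
      ((¬ ∃ b, Contracts U ℂ z b) ∧
        ∃ (h p : ℕ) (b : Fin p → Fin (n + 1) → ℤ), h + p = w ∧ (∀ l, Acts U ℂ z (b l)) ∧
        (∀ c : Fin p → ℤ, (∀ j j', z j ≠ 0 → z j' ≠ 0 →
          ∑ l, c l * b l j = ∑ l, c l * b l j') → c = 0) ∧
        kodairaDim y w Δ = (h : WithBot ℕ) ∧
        ∀ A, Effective y A → Integral y A → numericalDim y w Δ A = (h : EReal)) :=
  sparse_pair_lc hF hM hz hcomp hy hΔ hLC hone hklt hcan

end Pool.Agent.Results.MP_bc213e_ag.SparseLcPairs
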