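import Pool.Agent.N133.Kum
import Pool.Agent.TH466.QG.Top

/-!
MP_c2a5fc_ag, Q1: Kodaira dimension and numerical dimension for all projective manifolds which are
birational to covers `w j ^ e j = F j (t 0 ^ m, …, t n ^ m)` of arbitrary projective varieties, `m`
large.

For a projective manifold `M` of dimension `d` with function field `L`: `GeneralType ℂ L d` means
`κ(M) = d`; `KodGe ℂ L d (fun _ => False) 0` means `κ(M) ≥ 0`; `Psef ℂ L d (fun _ => False)` means
that `K_M` is pseudo-effective (which holds if `K_M` is nef); `NumNeg ℂ L d (fun _ => False)` means
that for every divisor `A` the divisors `j K_M + A`, `j` large, have no sections (`ν(M) = -∞`);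
`Ruled ℂ L` means that `M` is birational to a product with the projective line.
-/

set_option autoImplicit false

namespace Pool.Agent.Results.MP_c2a5fc_ag.KummerAbundance

open Pool.Agent.W602.GT Pool.Agent.Y192.KC
open Pool.Agent.W619.TW (NumNeg)

/-- Let `Z` be any irreducible projective variety in `P^n`, not in a coordinate hyperplane, with the
homogeneous prime ideal `I`, let `F 1, …, F r` be forms which do not vanish on `Z`, and let
`e 1, …, e r` be positive numbers (there is no condition on the singularities of `Z` and of the
divisors `F j = 0`). There is a number `m0` with the following property. Let `m ≥ m0` be divisible by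
the `e j`, and let `X` be any irreducible component, of dimension `d > 0`, of the projective variety
with the equations `f (t 0 ^ m, …, t n ^ m) = 0`, `f ∈ I`, and
`w j ^ e j = F j (t 0 ^ m, …, t n ^ m)` in the weighted projective space with the homogeneous
coordinates `t i` and `w j`; `L` is the function field of `X`, and `t`, `w` are the coordinates of its
generic point. Then for every projective manifold `M` birational to `X` the following are equivalent:
`K_M` is pseudo-effective; `κ(M) ≥ 0`; `κ(M) = d`; `M` is not ruled; there is no one-parameter group
of diagonal matrices which acts nontrivially on `P^n` and preserves `Z` and the essential parts of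
the branch divisors `F j = 0` on `Z`. Otherwise `ν(M) = -∞`. So `κ(M) = ν(M)`. -/
theorem result {n r : ℕ} (X : ZCov n r) (hG : X.G = 1) :
    ∃ m0 : ℕ, ∀ m, m0 ≤ m → (∀ j, X.e j ∣ m) →
      ∀ (L : Type) [Field L] [Algebra ℂ L] (t : Fin (n + 1) → L) (w : Fin r → L),
      ZField X m L t w → ∀ d : ℕ, 1 ≤ d → Algebra.trdeg ℂ L = d →
      [Psef ℂ L d (fun _ => False), KodGe ℂ L d (fun _ => False) 0, GeneralType ℂ L d,
        ¬ Ruled ℂ L, ¬ ZRed X].TFAE ∧
      (¬ Psef ℂ L d (fun _ => False) → NumNeg ℂ L d (fun _ => False)) :=
  Pool.Agent.N133.Kum.kum_abundance X hG

end Pool.Agent.Results.MP_c2a5fc_ag.KummerAbundance
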