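import Pool.Agent.TH710.ND.Proj
import Pool.Agent.TH710.ND.Sp
import Pool.Agent.TH466.QG.Top

/-!
MP_c2a5fc_ag, Q1: Kodaira dimension and numerical dimension for all projective manifolds which are
birational to the components of projective varieties given by nested sums of high powers of linear
forms, or of monomials.

`HighTowers s N h F` (`Pool/Agent/TH710/ND`): the `F e` are nested sums of high powers of linear
forms, or nested sums of high powers of monomials. `K`, `y` are the function field and the generic
point of an irreducible component of dimension `w` of `{F = 0}`. For a projective manifold `M` of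
dimension `w` with function field `K`: `GeneralType k K w` means `κ(M) = w`;
`KodGe k K w (fun _ => False) 0` means `κ(M) ≥ 0`; `Psef k K w (fun _ => False)` means that `K_M` is
pseudo-effective (which holds if `K_M` is nef); `NumNeg k K w (fun _ => False)` means that for every
divisor `A` the divisors `j K_M + A`, `j` large, have no sections (`ν(M) = -∞`).
-/

set_option autoImplicit false

namespace Pool.Agent.Results.MP_c2a5fc_ag.NestedAbundance

open FF MvPolynomial Pool.Agent.W602.GT
open Pool.Agent.TH710.ND (HighTowers)
open Pool.Agent.W619.TW (NumNeg)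

/-- Let `V` be an irreducible component, of dimension `w`, of a projective variety given by forms
which are nested sums of high powers of linear forms, or nested sums of high powers of monomials: at
each of at most `h + 1` levels there are at most `s` summands, and the exponents are at least
`(n + 1) (h + 1) (2 s + 1) ^ 5`. Then for every projective manifold `M` birational to `V` the
following are equivalent: `K_M` is pseudo-effective; `κ(M) ≥ 0`; `κ(M) = w`; `M` is not ruled.
Otherwise `ν(M) = -∞`. So `κ(M) = ν(M)`. -/
theorem result {k : Type} [Field k] [IsAlgClosed k] [CharZero k] {n : ℕ} {ι : Type}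
    {F : ι → MvPolynomial (Fin (n + 1)) k} {s N h : ℕ}
    (hF : HighTowers s N h F) (hN : (n + 1) * ((h + 1) * (2 * s + 1) ^ 5) ≤ N)
    {K : Type} [Field K] [Algebra k K] {w : ℕ} {y : Fin (n + 1) → K}
    (hy : SubVar F K w y) (hcomp : IsComponent F y) :
    [Psef k K w (fun _ => False), KodGe k K w (fun _ => False) 0, GeneralType k K w,
      ¬ Ruled k K].TFAE ∧
    (¬ Psef k K w (fun _ => False) → NumNeg k K w (fun _ => False)) := by
  have h1 := Pool.Agent.TH710.ND.neg_tfae hF (Pool.Agent.TH710.ND.bnd_le hN).1 hy hcomp
  have hess : Algebra.EssFiniteType k K := Pool.Agent.TH466.QG.SubVar.ess hy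
  have e1 : ¬ KodGe k K w (fun _ => False) 0 ↔ ¬ Psef k K w (fun _ => False) := h1.out 0 1
  have e2 : ¬ GeneralType k K w ↔ ¬ Psef k K w (fun _ => False) := h1.out 3 1
  have e3 : Ruled k K ↔ ¬ Psef k K w (fun _ => False) := h1.out 2 1
  refine ⟨?_, fun h2 => (Pool.Agent.TH466.QG.neg_below (K := K) (L := K) hy.dim (e3.2 h2)).2.2⟩
  tfae_have 1 ↔ 2 := (not_iff_not.1 e1).symm
  tfae_have 1 ↔ 3 := (not_iff_not.1 e2).symm
  tfae_have 1 ↔ 4 := by rw [e3, not_not]
  tfae_finish

end Pool.Agent.Results.MP_c2a5fc_ag.NestedAbundance
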