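import Pool.Agent.R869.WProj
import Pool.Agent.TH466.QG.Top

/-!
MP_c2a5fc_ag, Q1: Kodaira dimension and numerical dimension for all projective manifolds which are
birational to the components of the projective varieties given by forms with few monomials whose
exponents are far apart in the sense of lattice widths (no divisibility of the exponents).

`Wide ∅ F N` (`Pool/Agent/R869/WDefs.lean`): whenever at most `n` pairs of exponent vectors of the
forms, in the variables of a set `I`, are such that the sum of the segments between them has positive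
width in all directions, this sum has width at least `N` in all directions. `K`, `y` are the function
field and the generic point of an irreducible component of dimension `w` of `{F = 0}`. For a
projective manifold `M` of dimension `w` with function field `K`: `GeneralType ℂ K w` means
`κ(M) = w`; `KodGe ℂ K w (fun _ => False) 0` means `κ(M) ≥ 0`; `Psef ℂ K w (fun _ => False)` means
that `K_M` is pseudo-effective (which holds if `K_M` is nef); `NumNeg ℂ K w (fun _ => False)` means
that for every divisor `A` the divisors `j K_M + A`, `j` large, have no sections (`ν(M) = -∞`).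
-/

set_option autoImplicit false

namespace Pool.Agent.Results.MP_c2a5fc_ag.WideAbundance

open MvPolynomial Pool.Agent.W602.GT Pool.Agent.H159R3.GGLLog Pool.Agent.R869.Wd
open Pool.Agent.W619.TW (NumNeg)

/-- Let `V` be an irreducible component, of dimension `w ≥ 1`, of the projective variety in `P^n`
given by finitely many forms with at most `s` monomials, and let the system of forms be `N`-wide with
`N > n s (s - 1) (s - 2) / 2`. Then for every projective manifold `M` birational to `V` the following
are equivalent: `K_M` is pseudo-effective; `κ(M) ≥ 0`; `κ(M) = w`; `M` is not ruled; all diagonal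
one-parameter groups which act on `V` act trivially. Otherwise `ν(M) = -∞`. So `κ(M) = ν(M)`. -/
theorem result {n : ℕ} {ι : Type} {F : ι → MvPolynomial (Fin (n + 1)) ℂ} {s N : ℕ}
    (hfin : Finite ι) (hs : 1 ≤ s) (hF : ∀ e, IsForm (F e)) (hc : ∀ e, (F e).support.card ≤ s)
    (hW : Wide ∅ F N) (hN : n * (s * ((s - 1) * (s - 2) / 2)) < N) {K : Type} [Field K]
    [Algebra ℂ K] {w : ℕ} {y : Fin (n + 1) → K} (hw : 1 ≤ w) (hy : SubVar F K w y)
    (hcomp : IsComponent F y) :
    [Psef ℂ K w (fun _ => False), KodGe ℂ K w (fun _ => False) 0, GeneralType ℂ K w, ¬ Ruled ℂ K,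
      ∀ b : Fin (n + 1) → ℤ, Acts ∅ ℂ y b → ∀ i i', y i ≠ 0 → y i' ≠ 0 → b i = b i'].TFAE ∧
    (¬ Psef ℂ K w (fun _ => False) → NumNeg ℂ K w (fun _ => False)) := by
  have hC : Sys ∅ F s N := ⟨hF, hs, hc, hW, by
    rw [tri_choose]
    refine lt_of_le_of_lt (le_of_eq ?_) hN
    ring⟩
  have h1 := general_or_ruled hC hw hy hcomp
  have hess : Algebra.EssFiniteType ℂ K := Pool.Agent.TH466.QG.SubVar.ess hy
  have e1 : GeneralType ℂ K w ↔ ¬ Ruled ℂ K := h1.out 0 1
  have e2 : GeneralType ℂ K w ↔ Psef ℂ K w (fun _ => False) := h1.out 0 2
  refine ⟨?_, fun h2 => (Pool.Agent.TH466.QG.neg_below (K := K) (L := K) hy.dim ?_).2.2⟩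
  · tfae_have 3 → 2 := fun h => kod_of_general h
    tfae_have 2 → 1 := fun h => psef_of_kodGe h
    tfae_have 1 → 3 := e2.2
    tfae_have 3 ↔ 4 := e1
    tfae_have 3 ↔ 5 := h1.out 0 3
    tfae_finish
  · by_contra hR
    exact h2 (e2.1 (e1.2 hR))

end Pool.Agent.Results.MP_c2a5fc_ag.WideAbundance
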