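import Pool.Agent.N133.PC9

/-!
MP_e23cd6_ag, Q1: abundance for klt pairs `(X', Δ)` on the projective models `X'` of the
covers `w j ^ e j = F j (t 0 ^ m, …, t n ^ m)` of arbitrary projective varieties, `m` large.

`ZCov`, `ZField` (`Pool/Agent/Y192/KC/ZDefs.lean`): the data `Z`, `F j`, `e j` (and `G = 1`); the
function fields of the components of the covers. `ZRed X`: there is a one-parameter group of diagonal
matrices which acts nontrivially on `P^n` and preserves `Z` and the essential parts of the branch
divisors; `ZRedBy X l` (`Pool/Agent/N133/PC9.lean`): the group with the weights `l` is one of these.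

`NormalModel y` (`Pool/Agent/Y172/Defs.lean`): `y` is the generic point, in homogeneous coordinates,
of a normal projective variety `X'` with function field `L`, so `X'` is any normal projective variety
birational to the cover. `Effective y Δ`: `Δ ≥ 0` is a `ℚ`-divisor on `X'`. `Klt y d Δ`
(`Pool/Agent/N133/PC8.lean`): the pair `(X', Δ)` is Kawamata log terminal. `LogDisc y d Δ Q α`
(`Pool/Agent/Y191/Disc.lean`): the log discrepancy of `(X', Δ)` along the prime divisor `Q` over `X'` is
at least `α`. `kodairaDim y d Δ` is the Kodaira dimension of `K + Δ`, and `numericalDim y d Δ A` is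
the numerical dimension with respect to the divisor `A`: the upper limit of
`log h⁰(m (K + Δ) + A) / log m`; if it is `-∞` for all `A ≥ 0`, then `K + Δ` is not
pseudo-effective. `OverCoord t Q`, `Tangent t l Q` (`Pool/Agent/N133/PC8.lean`): the centre of `Q`
lies on a coordinate hyperplane of the projective space of `Z`; `Q` is invariant under the
one-parameter group.
-/

set_option autoImplicit false

namespace Pool.Agent.Results.MP_e23cd6_ag.KummerKltPairs

open FF Pool.Agent.W602.GT Pool.Agent.N133.PC Pool.Agent.Y192.KC
open Pool.Agent.Y172 (NormalModel IsPrimeDivisor Effective Integral LogCanonical kodairaDim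
  numericalDim)
open Pool.Agent.Y191 (LogDisc)

/-- Let `Z` be any irreducible projective variety in `P^n`, not in a coordinate hyperplane, with the
homogeneous prime ideal `I`, let `F 1, …, F r` be forms which do not vanish on `Z`, and let
`e 1, …, e r` be positive numbers (there is no condition on the singularities of `Z` and of the
divisors `F j = 0`). There is a number `m0` with the following property. Let `m ≥ m0` be divisible by
the `e j`, and let `L` be the function field of any irreducible component, of dimension `d > 0`, of
the projective variety with the equations `f (t 0 ^ m, …, t n ^ m) = 0`, `f ∈ I`, and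
`w j ^ e j = F j (t 0 ^ m, …, t n ^ m)` in weighted projective space. Let `(X', Δ)` be any projective
klt pair, `X'` with the function field `L`, such that each prime divisor over `X'` with negative
discrepancy lies over a coordinate hyperplane `t_i = 0` or is invariant under the one-parameter groups
of diagonal matrices which preserve `Z` and the essential parts of the branch divisors (there is no
condition if there is no such nontrivial group). Then either there is no such nontrivial
one-parameter group, and `κ(K + Δ) = ν(K + Δ) = d`, or there is one, and `K + Δ` is not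
pseudo-effective: `κ = ν = -∞`. If `K + Δ` is nef, then it is
nef and big, hence semiample by the base point free theorem. -/
theorem result {n r : ℕ} (X : ZCov n r) (hG : X.G = 1) :
    ∃ m0 : ℕ, ∀ m, m0 ≤ m → (∀ j, X.e j ∣ m) →
      ∀ (L : Type) [Field L] [Algebra ℂ L] (t : Fin (n + 1) → L) (w : Fin r → L),
      ZField X m L t w → ∀ d : ℕ, 1 ≤ d → Algebra.trdeg ℂ L = d →
      ∀ (N : ℕ) (y : Fin (N + 1) → L), NormalModel y → ∀ Δ : Place ℂ L → ℚ, Effective y Δ →
      Klt y d Δ →
      (∀ Q, Divisorial d Q → LogDisc y d Δ Q 1 ∨ OverCoord t Q ∨ ∀ l, ZRedBy X l → Tangent t l Q) →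
      (¬ ZRed X ∧ kodairaDim y d Δ = (d : WithBot ℕ) ∧
        ∀ A, Effective y A → Integral y A → numericalDim y d Δ A = (d : EReal)) ∨
      (ZRed X ∧ kodairaDim y d Δ = ⊥ ∧ ∀ A, Effective y A → numericalDim y d Δ A = ⊥) :=
  kum_pair_klt X hG

end Pool.Agent.Results.MP_e23cd6_ag.KummerKltPairs
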