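import Pool.Agent.N133.PC10
import Pool.Agent.R869.WEx2

/-!
MP_e23cd6_ag, Q1: abundance for klt pairs `(X, Δ)` on the projective models `X` of the
projective varieties given by forms with few monomials whose exponents are far apart in the sense of
lattice widths (no divisibility of the exponents, arbitrary coefficients).

`Wide ∅ F M` (`Pool/Agent/R869/WDefs.lean`): whenever at most `n` pairs of exponent vectors of the
forms, in the variables of a set `I`, are such that the sum of the segments between them has positive
width in all directions, this sum has width at least `M` in all directions. `SubVar`, `IsComponent`: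
`K` is the function field, `z` the generic point, and `w` the dimension of an irreducible component
`V` of the projective variety `F = 0`. `Acts ∅ ℂ z b`: the one-parameter group `t ↦ diag (t ^ b_j)`
acts on `V`.

`NormalModel y` (`Pool/Agent/Y172/Defs.lean`): `y` is the generic point, in homogeneous coordinates,
of a normal projective variety `X` with function field `K`, so `X` is any normal projective variety
birational to `V`. `Effective y Δ`: `Δ ≥ 0` is a `ℚ`-divisor on `X`. `Klt y w Δ`
(`Pool/Agent/N133/PC8.lean`): the pair `(X, Δ)` is Kawamata log terminal. `LogDisc y w Δ Q α`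
(`Pool/Agent/Y191/Disc.lean`): the log discrepancy of `(X, Δ)` along the prime divisor `Q` over `X` is
at least `α`. `kodairaDim y w Δ` is the Kodaira dimension of `K_X + Δ`, and `numericalDim y w Δ A` is
the numerical dimension with respect to the divisor `A`: the upper limit of
`log h⁰(m (K_X + Δ) + A) / log m`; if it is `-∞` for all `A ≥ 0`, then `K_X + Δ` is not
pseudo-effective. `OverCoord z Q`, `Tangent z b Q` (`Pool/Agent/N133/PC8.lean`): the centre of `Q`
lies on a coordinate hyperplane of the projective space of `V`; `Q` is invariant under the
one-parameter group.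
-/

set_option autoImplicit false

namespace Pool.Agent.Results.MP_e23cd6_ag.WideKltPairs

open FF Pool.Agent.W602.GT Pool.Agent.R869.Wd Pool.Agent.N133.PC
open Pool.Agent.Y172 (NormalModel IsPrimeDivisor Effective Integral LogCanonical kodairaDim
  numericalDim)
open Pool.Agent.Y191 (LogDisc)

/-- Let `V` be an irreducible component, of dimension `w ≥ 1`, of a complex projective variety in
`P^n` given by forms with at most `s` monomials and arbitrary coefficients, and let the system of
forms be `M`-wide with `M > n s (s - 1) (s - 2) / 2`. Let `(X, Δ)` be any projective klt pair, `X`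
birational to `V`, such that each prime divisor over `X` with negative discrepancy lies over a
coordinate hyperplane or is invariant under the one-parameter groups of diagonal matrices which act on
`V` (for instance, `(X, Δ)` is invariant under the diagonal torus which acts on `V`; there is no
condition if no such group acts). Then either these one-parameter groups act trivially on `V`, and
`κ(K_X + Δ) = ν(K_X + Δ) = w`, or one of them acts nontrivially, and `K_X + Δ` is not
pseudo-effective: `κ = ν = -∞`. If `K_X + Δ` is nef, then it is
nef and big, hence semiample by the base point free theorem. -/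
theorem result {n : ℕ} {ι : Type} {F : ι → MvPolynomial (Fin (n + 1)) ℂ} {s M : ℕ}
    (hs : 1 ≤ s) (hF : ∀ e, IsForm (F e)) (hcard : ∀ e, (F e).support.card ≤ s)
    (hW : Wide ∅ F M) (hM : n * (s * ((s - 1) * (s - 2) / 2)) < M) {K : Type} [Field K]
    [Algebra ℂ K] {w : ℕ} {z : Fin (n + 1) → K} (hw : 1 ≤ w) (hz : SubVar F K w z)
    (hcomp : IsComponent F z) {N : ℕ} {y : Fin (N + 1) → K} (hy : NormalModel y)
    (Δ : Place ℂ K → ℚ) (hΔ : Effective y Δ) (hk : Klt y w Δ)
    (hcan : ∀ Q, Divisorial w Q → LogDisc y w Δ Q 1 ∨ OverCoord z Q ∨
      ∀ b, Acts ∅ ℂ z b → Tangent z b Q) :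
    ((∀ b, Acts ∅ ℂ z b → ∀ i i', z i ≠ 0 → z i' ≠ 0 → b i = b i') ∧
      kodairaDim y w Δ = (w : WithBot ℕ) ∧
      ∀ A, Effective y A → Integral y A → numericalDim y w Δ A = (w : EReal)) ∨
    ((∃ b, Acts ∅ ℂ z b ∧ ∃ i i', z i ≠ 0 ∧ z i' ≠ 0 ∧ b i ≠ b i') ∧
      kodairaDim y w Δ = ⊥ ∧ ∀ A, Effective y A → numericalDim y w Δ A = ⊥) := by
  have hC : Sys ∅ F s M := ⟨hF, hs, hcard, hW, by
    rw [tri_choose]
    refine lt_of_le_of_lt (le_of_eq ?_) hM
    ring⟩
  exact wide_pair_klt hC hw hz hcomp hy hΔ hk hcan

end Pool.Agent.Results.MP_e23cd6_ag.WideKltPairs
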